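import Mathlib

open Set Metric

namespace Pool.Agent.Results.MP_c457a4_an.Sum

variable (𝕜 : Type) [RCLike 𝕜]

/-- `S` is a slice of the closed unit ball -/
def IsSlice {X : Type} [NormedAddCommGroup X] [NormedSpace 𝕜 X] (S : Set X) : Prop :=
  ∃ (f : X →L[𝕜] 𝕜) (α : ℝ), ‖f‖ = 1 ∧ 0 < α ∧ S = {z | ‖z‖ ≤ 1 ∧ 1 - α < RCLike.re (f z)}

/-- `C` is a convex combination of slices of the closed unit ball -/
def IsCCS {X : Type} [NormedAddCommGroup X] [NormedSpace 𝕜 X] (C : Set X) : Prop :=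
  ∃ (n : ℕ) (l : Fin n → ℝ) (S : Fin n → Set X), (∀ i, 0 ≤ l i) ∧ ∑ i, l i = 1 ∧
    (∀ i, IsSlice 𝕜 (S i)) ∧ C = {w | ∃ z : Fin n → X, (∀ i, z i ∈ S i) ∧ w = ∑ i, (l i : 𝕜) • z i}

/-- `x` is a ccs Delta-point -/
def CcsDelta {X : Type} [NormedAddCommGroup X] [NormedSpace 𝕜 X] (x : X) : Prop :=
  ‖x‖ = 1 ∧ ∀ C : Set X, IsCCS 𝕜 C → x ∈ C → IsLUB ((fun z => ‖x - z‖) '' C) 2

variable {𝕜}

lemma key {X Z : Type} [NormedAddCommGroup X] [NormedSpace 𝕜 X] [NormedAddCommGroup Z]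
    [NormedSpace 𝕜 Z] (P : Z →L[𝕜] X) (J : X →L[𝕜] Z) (h1 : ∀ x, P (J x) = x)
    (h2 : ∀ z, ‖P z‖ ≤ ‖z‖) (h3 : ∀ x z, ‖x‖ ≤ 1 → ‖z‖ ≤ 1 → ‖J x + (z - J (P z))‖ ≤ 1)
    {p : Z} (hp : ‖p‖ = 1) (h : CcsDelta 𝕜 (P p)) : CcsDelta 𝕜 p := by
  refine ⟨hp, ?_⟩
  rintro _ ⟨n, l, S, l0, l1, hS, rfl⟩ ⟨z, hz, e⟩
  have nS : ∀ i, ∀ w ∈ S i, ‖w‖ ≤ 1 := fun i w hw => by
    obtain ⟨f, α, -, -, e⟩ := hS i
    rw [e] at hw
    exact hw.1
  refine ⟨?_, fun b hb => ?_⟩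
  · rintro _ ⟨_, ⟨w, hw, rfl⟩, rfl⟩
    refine (norm_sub_le _ _).trans ?_
    have : ‖∑ i, (l i : 𝕜) • w i‖ ≤ ∑ i, l i := norm_sum_le_of_le _ fun i _ => by
      rw [norm_smul, RCLike.norm_ofReal, abs_of_nonneg (l0 i)]
      exact mul_le_of_le_one_right (l0 i) (nS i _ (hw i))
    linarith
  have sl : ∀ i, IsSlice 𝕜 {x | ‖x‖ ≤ 1 ∧ J x + (z i - J (P (z i))) ∈ S i} := fun i => by
    have zi := hz i
    have ni := nS i _ zi
    obtain ⟨f, α, -, -, e⟩ := hS i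
    rw [e] at zi ⊢
    rcases eq_or_ne (f.comp J) 0 with h0 | h0
    · obtain ⟨g, g1, -⟩ := exists_dual_vector 𝕜 (P p) (by rw [h.1]; exact one_ne_zero)
      have k : ∀ x, f (J x) = 0 := fun x => congrArg (fun u : X →L[𝕜] 𝕜 => u x) h0
      refine ⟨g, 3, g1, by norm_num, Set.ext fun x => and_congr_right fun hx =>
        iff_of_true ⟨h3 x _ hx ni, by simpa [k] using zi.2⟩ ?_⟩
      have := neg_le_of_abs_le ((RCLike.abs_re_le_norm _).trans (g.le_of_opNorm_le_of_le g1.le hx))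
      linarith
    have c0 := norm_pos_iff.2 h0
    have s : ∀ x, RCLike.re ((((‖f.comp J‖⁻¹ : ℝ) : 𝕜) • f.comp J) x) =
        RCLike.re (f (J x)) / ‖f.comp J‖ := fun x => by
      rw [ContinuousLinearMap.smul_apply, smul_eq_mul, RCLike.re_ofReal_mul, inv_mul_eq_div]; rfl
    refine ⟨((‖f.comp J‖⁻¹ : ℝ) : 𝕜) • f.comp J,
      1 - (1 - α - RCLike.re (f (z i - J (P (z i))))) / ‖f.comp J‖, ?_, ?_,
      Set.ext fun x => and_congr_right fun hx => ?_⟩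
    · rw [norm_smul, RCLike.norm_ofReal, abs_of_pos (inv_pos.2 c0), inv_mul_cancel₀ c0.ne']
    · have h4 : RCLike.re (f (J (P (z i)))) ≤ ‖f.comp J‖ * 1 := (RCLike.re_le_norm _).trans
        ((f.comp J).le_of_opNorm_le_of_le le_rfl ((h2 _).trans ni))
      rw [sub_pos, div_lt_one c0, map_sub, map_sub]
      linarith [zi.2]
    · rw [s, sub_sub_cancel, div_lt_div_iff_of_pos_right c0, mem_setOf_eq, map_add, map_add,
        and_iff_right (h3 x _ hx ni)]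
      exact sub_lt_iff_lt_add.symm
  refine (h.2 _ ⟨n, l, _, l0, l1, sl, rfl⟩ ⟨fun i => P (z i), fun i =>
    ⟨(h2 _).trans (nS i _ (hz i)), by simpa using hz i⟩, by simp [e]⟩).2 ?_
  rintro _ ⟨_, ⟨u, hu, rfl⟩, rfl⟩
  refine le_trans ?_ ((h2 _).trans (hb ⟨_, ⟨_, fun i => (hu i).2, rfl⟩, rfl⟩))
  simp [h1]

/-- If `x` and `y` are ccs Delta-points of real or complex Banach spaces `X` and `Y` and
`max a b = 1`, then `(a x, b y)` is a ccs Delta-point of `X × Y` with the maximum norm. -/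
theorem result (𝕜 X Y : Type) [RCLike 𝕜] [NormedAddCommGroup X] [NormedSpace 𝕜 X] [CompleteSpace X]
    [NormedAddCommGroup Y] [NormedSpace 𝕜 Y] [CompleteSpace Y] (x : X) (y : Y)
    (hx : CcsDelta 𝕜 x) (hy : CcsDelta 𝕜 y) (a b : ℝ) (ha : a ∈ Icc (0:ℝ) 1) (hb : b ∈ Icc (0:ℝ) 1)
    (h : max a b = 1) : CcsDelta 𝕜 (((a : 𝕜) • x, (b : 𝕜) • y) : X × Y) := by
  have n : ‖(((a : 𝕜) • x, (b : 𝕜) • y) : X × Y)‖ = 1 := by
    rw [Prod.norm_mk, norm_smul, norm_smul, hx.1, hy.1, RCLike.norm_ofReal, RCLike.norm_ofReal,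
      abs_of_nonneg ha.1, abs_of_nonneg hb.1, mul_one, mul_one, h]
  rcases max_choice a b with e | e <;> rw [h] at e <;> subst e
  · exact key (ContinuousLinearMap.fst 𝕜 X Y) (ContinuousLinearMap.inl 𝕜 X Y) (fun _ => rfl)
      norm_fst_le (fun u z hu hz => max_le (by simpa using hu)
        (by simpa using (norm_snd_le z).trans hz)) n (by simpa using hx)
  · exact key (ContinuousLinearMap.snd 𝕜 X Y) (ContinuousLinearMap.inr 𝕜 X Y) (fun _ => rfl)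
      norm_snd_le (fun u z hu hz => max_le (by simpa using (norm_fst_le z).trans hz)
        (by simpa using hu)) n (by simpa using hy)

end Pool.Agent.Results.MP_c457a4_an.Sum
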